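import Pool.Agent.Y262.QE.Stm

/-!
# Project QE (helper262): eigenfunctions concentrated on one frequency are not equidistributed

`cyl : StReg → StQuad → StLim → StCyl`.
-/

set_option autoImplicit false

open Set Filter Topology MeasureTheory
open scoped Real ContDiff ComplexConjugate

noncomputable section

namespace Pool.Agent.Y237.QE

open Pool.Agent.Y262.QE

/-- the derivative of a test function is a test function -/
lemma tst_deriv {L : ℝ} {η : ℝ → ℝ} (h : Tst L η) : Tst L (deriv η) :=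
  ⟨(contDiff_infty_iff_deriv.1 h.1).2, h.2.1.deriv, (tsupport_deriv_subset).trans h.2.2⟩

/-- the iterated derivatives of a test function are test functions -/
lemma tst_iter {L : ℝ} {η : ℝ → ℝ} (h : Tst L η) (n : ℕ) : Tst L (iteratedDeriv n η) := by
  induction n with
  | zero => rw [iteratedDeriv_zero]; exact h
  | succ n ih => rw [iteratedDeriv_succ]; exact tst_deriv ih

lemma tst_bd {L : ℝ} {η : ℝ → ℝ} (h : Tst L η) : ∃ C : ℝ, 0 ≤ C ∧ ∀ x, |η x| ≤ C := by
  obtain ⟨C, hC⟩ := h.2.1.exists_bound_of_continuous h.1.continuous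
  exact ⟨C, (norm_nonneg _).trans (hC 0), hC⟩

lemma tst_out {L : ℝ} {η : ℝ → ℝ} (h : Tst L η) {x : ℝ} (hx : x ∉ Ioo 0 L) : η x = 0 := by
  by_contra hne
  exact hx (h.2.2 (subset_tsupport _ hne))

/-- the integral of the derivative of a test function -/
lemma tst_int {L : ℝ} {η : ℝ → ℝ} (hL : 0 < L) (h : Tst L η) : ∫ x in Ioo 0 L, deriv η x = 0 := by
  rw [← integral_Ioc_eq_integral_Ioo, ← intervalIntegral.integral_of_le hL.le,
    intervalIntegral.integral_deriv_eq_sub]
  · rw [tst_out h (by simp), tst_out h (by simp), sub_zero]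
  · exact fun x _ => (h.1.differentiable (by simp)).differentiableAt
  · exact (tst_deriv h).1.continuous.intervalIntegrable _ _

/-- products of test functions with integrable functions -/
lemma tst_mul {L : ℝ} {η : ℝ → ℝ} (h : Tst L η) {p : ℝ → ℝ} {ν : Measure ℝ}
    (hp : Integrable p ν) : Integrable (fun x => η x * p x) ν := by
  obtain ⟨C, -, hC⟩ := tst_bd h
  exact hp.bdd_mul (c := C) h.1.continuous.aestronglyMeasurable (Eventually.of_forall hC)

/-- the estimate of the modes with a large frequency -/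
lemma est {L : ℝ} (hQ : StQuad) {η : ℝ → ℝ} (h : Tst L η) {S : ℝ}
    (hS : ∀ x, |iteratedDeriv 3 η x| ≤ S) {p : ℝ → ℝ}
    (hp : MemLp p 2 (volume.restrict (Ioo 0 L))) {k α β : ℝ}
    (hae : ∀ᵐ x ∂volume.restrict (Ioo 0 L), p x = α * cs k x + β * sn k x) :
    4 * |k| * |∫ x in Ioo 0 L, deriv η x * (p x) ^ 2| ≤ S * ∫ x in Ioo 0 L, (p x) ^ 2 := by
  have hp2 : Integrable (fun x => (p x) ^ 2) (volume.restrict (Ioo 0 L)) := hp.integrable_sq
  have h1 := hQ L k α β η h
  have h2 : ∫ x in Ioo 0 L, (iteratedDeriv 3 η x + 4 * k * deriv η x) * (p x) ^ 2 = 0 := by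
    refine Eq.trans ?_ h1
    refine integral_congr_ae ?_
    filter_upwards [hae] with x hx
    simp only [hx]
  have i1 := tst_mul (tst_iter h 3) hp2
  have i2 := tst_mul (tst_deriv h) hp2
  have h3 : (∫ x in Ioo 0 L, iteratedDeriv 3 η x * (p x) ^ 2) +
      4 * k * ∫ x in Ioo 0 L, deriv η x * (p x) ^ 2 = 0 := by
    refine Eq.trans ?_ h2
    rw [← integral_const_mul, ← integral_add i1 (i2.const_mul _)]
    refine integral_congr_ae (Eventually.of_forall fun x => ?_)
    simp only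
    ring
  have h4 : |4 * k * ∫ x in Ioo 0 L, deriv η x * (p x) ^ 2| =
      |∫ x in Ioo 0 L, iteratedDeriv 3 η x * (p x) ^ 2| := by
    rw [← abs_neg]
    congr 1
    linarith
  rw [abs_mul, abs_mul, abs_of_nonneg (by norm_num : (0 : ℝ) ≤ 4)] at h4
  rw [h4, ← integral_const_mul]
  refine (abs_integral_le_integral_abs).trans (integral_mono i1.abs (hp2.const_mul _) fun x => ?_)
  simp only
  rw [abs_mul, abs_of_nonneg (sq_nonneg (p x))]
  exact mul_le_mul_of_nonneg_right (hS x) (sq_nonneg _)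

/-- the difference of two different square numbers -/
lemma sq_gap (m m' : ℕ) (h : m' ≠ m) : (m : ℝ) + 2 ≤ |((m : ℝ) + 1) ^ 2 - ((m' : ℝ) + 1) ^ 2| := by
  have e : ((m : ℝ) + 1) ^ 2 - ((m' : ℝ) + 1) ^ 2 = ((m : ℝ) - m') * (m + m' + 2) := by ring
  rw [e, abs_mul, abs_of_nonneg (by positivity : (0 : ℝ) ≤ (m : ℝ) + m' + 2)]
  have h1 : (1 : ℝ) ≤ |(m : ℝ) - m'| := by
    have : (1 : ℤ) ≤ |(m : ℤ) - m'| := Int.one_le_abs (by omega)
    exact_mod_cast this
  have h2 : (0 : ℝ) ≤ m' := Nat.cast_nonneg _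
  have h3 : (0 : ℝ) ≤ m := Nat.cast_nonneg _
  nlinarith

theorem cyl : StReg → StQuad → StLim → StCyl := by
  intro hR hQ hLim M _ _ _ _ μ _ h L H _ _ i a p hL hc h0 hCy s r c χ hcpos hχ hχ0 u lam m hm hlam
    hnorm hweak hcomp hlim
  -- bound of the weight
  obtain ⟨C0, hC0, hb⟩ : ∃ C0 : ℝ, 0 < C0 ∧ ∀ x, 1 ≤ C0 * Real.exp (s * h x) := by
    obtain ⟨K, hK⟩ := isCompact_univ.exists_bound_of_continuousOn (f := fun x => s * h x)
      (by fun_prop)
    refine ⟨Real.exp K, Real.exp_pos _, fun x => ?_⟩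
    rw [← Real.exp_add]
    refine Real.one_le_exp ?_
    have := hK x (mem_univ x)
    rw [Real.norm_eq_abs] at this
    linarith [neg_abs_le (s * h x)]
  obtain ⟨C1, hC1⟩ : ∃ C1 : ℝ, ∀ x, ‖Real.exp (s * h x)‖ ≤ C1 := by
    obtain ⟨K, hK⟩ := isCompact_univ.exists_bound_of_continuousOn
      (f := fun x => Real.exp (s * h x)) (by fun_prop)
    exact ⟨K, fun x => hK x (mem_univ x)⟩
  have hem : AEStronglyMeasurable (fun x => Real.exp (s * h x)) μ :=
    (by fun_prop : Continuous fun x => Real.exp (s * h x)).aestronglyMeasurable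
  have hsq : ∀ v, ‖i v‖ ^ 2 = ∫ x, (i v x) ^ 2 ∂μ := by
    intro v
    rw [← real_inner_self_eq_norm_sq, L2.inner_def]
    refine integral_congr_ae (Eventually.of_forall fun x => ?_)
    simp only [RCLike.inner_apply, conj_trivial]
    ring
  have hint : ∀ v, Integrable (fun x => (i v x) ^ 2) μ := fun v => (Lp.memLp (i v)).integrable_sq
  have hnb : ∀ n, ‖i (u n)‖ ^ 2 ≤ C0 := by
    intro n
    rw [hsq, ← mul_one C0, ← hnorm n, ← integral_const_mul]
    refine integral_mono (hint _) (((hint _).bdd_mul hem (Eventually.of_forall hC1)).const_mul _)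
      fun x => ?_
    simp only
    rw [← mul_assoc]
    exact le_mul_of_one_le_left (sq_nonneg _) (hb x)
  -- the weak equation for each mode
  have hpi : ∀ v m', Integrable (p v m') (volume.restrict (Ioo 0 L)) := fun v m' =>
    (hCy.mem v m').integrable one_le_two
  have hw : ∀ (n m' : ℕ) (η : ℝ → ℝ), Tst L η →
      ∫ x in Ioo 0 L, (iteratedDeriv 2 η x + (lam n - ((m' : ℝ) + 1) ^ 2) * η x) * p (u n) m' x = 0 := by
    intro n m' η hη
    obtain ⟨e, -, he0, he⟩ := hCy.k2 η hη
    obtain ⟨e1, e2⟩ := he m' (u n)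
    have e3 : ∫ x, Real.exp (s * h x) * (i (u n) x * i (e m') x) ∂μ = inner ℝ (i (e m')) (i (u n)) := by
      rw [L2.inner_def]
      refine integral_congr_ae ?_
      filter_upwards [he0 m'] with x hx
      simp only [RCLike.inner_apply, conj_trivial]
      by_cases hz : i (e m') x = 0
      · rw [hz]; ring
      · rw [hx hz]; simp
    have e4 := hweak n (e m')
    rw [hCy.sa, e2, e3, e1] at e4
    have i1 := tst_mul (tst_iter hη 2) (hpi (u n) m')
    have i2 := tst_mul hη (hpi (u n) m')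
    have e5 : ∫ x in Ioo 0 L, (-(iteratedDeriv 2 η x) + ((m' : ℝ) + 1) ^ 2 * η x) * p (u n) m' x =
        (-1) * (∫ x in Ioo 0 L, iteratedDeriv 2 η x * p (u n) m' x) +
          ((m' : ℝ) + 1) ^ 2 * ∫ x in Ioo 0 L, η x * p (u n) m' x := by
      rw [← integral_const_mul, ← integral_const_mul,
        ← integral_add (i1.const_mul _) (i2.const_mul _)]
      refine integral_congr_ae (Eventually.of_forall fun x => ?_)
      simp only
      ring
    have e6 : ∫ x in Ioo 0 L, (iteratedDeriv 2 η x + (lam n - ((m' : ℝ) + 1) ^ 2) * η x) * p (u n) m' x =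
        (∫ x in Ioo 0 L, iteratedDeriv 2 η x * p (u n) m' x) +
          (lam n - ((m' : ℝ) + 1) ^ 2) * ∫ x in Ioo 0 L, η x * p (u n) m' x := by
      rw [← integral_const_mul, ← integral_add i1 (i2.const_mul _)]
      refine integral_congr_ae (Eventually.of_forall fun x => ?_)
      simp only
      ring
    rw [e6]
    rw [e5] at e4
    linarith
  have hreg : ∀ n m' : ℕ, ∃ α β : ℝ, ∀ᵐ x ∂volume.restrict (Ioo 0 L),
      p (u n) m' x = α * cs (lam n - ((m' : ℝ) + 1) ^ 2) x + β * sn (lam n - ((m' : ℝ) + 1) ^ 2) x :=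
    fun n m' => hR L hL _ _ (hCy.mem _ _) (hw n m')
  -- the components of the frequency `m n + 1`
  have hmain : ∀ η, Tst L η → Tendsto (fun n => ∫ x in Ioo 0 L, deriv η x * (p (u n) (m n) x) ^ 2)
      atTop (𝓝 0) := by
    intro η hη
    obtain ⟨f, hf, hf0, hfi, hfs⟩ := hCy.k1 (deriv η) (tst_deriv hη)
    obtain ⟨S, hS0, hS⟩ := tst_bd (tst_iter hη 3)
    have hfe : ∀ x, f x * Real.exp (s * h x) = f x := by
      intro x
      by_cases hz : f x = 0
      · rw [hz, zero_mul]
      · rw [hf0 x hz]; simp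
    have t1 : Tendsto (fun n => ∫ x, f x * (i (u n) x) ^ 2 ∂μ) atTop (𝓝 0) := by
      have := hlim f hf
      simp only [← mul_assoc, hfe] at this
      rwa [hfi, tst_int hL hη, mul_zero, zero_div] at this
    have hmr : Tendsto (fun n => ((m n : ℝ) + 2 - r)) atTop atTop := by
      have : Tendsto (fun n => (m n : ℝ)) atTop atTop := tendsto_natCast_atTop_atTop.comp hm
      simpa [sub_eq_add_neg, add_assoc] using tendsto_atTop_add_const_right _ (2 + -r) this
    have t2 : Tendsto (fun n => S / (4 * ((m n : ℝ) + 2 - r)) * C0) atTop (𝓝 0) := by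
      have : Tendsto (fun n => S / (4 * ((m n : ℝ) + 2 - r))) atTop (𝓝 0) :=
        (hmr.const_mul_atTop (by norm_num : (0 : ℝ) < 4)).const_div_atTop S
      simpa using this.mul_const C0
    have hbd : ∀ᶠ n in atTop, |(∫ x, f x * (i (u n) x) ^ 2 ∂μ) -
        ∫ x in Ioo 0 L, deriv η x * (p (u n) (m n) x) ^ 2| ≤ S / (4 * ((m n : ℝ) + 2 - r)) * C0 := by
      filter_upwards [hmr.eventually_gt_atTop 0] with n hn
      have s1 := hasSum_ite_sub_hasSum (hfs (u n)) (m n)
      obtain ⟨b1, b2⟩ := hCy.bd (u n)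
      have s2 := b1.hasSum.mul_left (S / (4 * ((m n : ℝ) + 2 - r)))
      have hq : (0 : ℝ) ≤ S / (4 * ((m n : ℝ) + 2 - r)) := by positivity
      refine (HasSum.norm_le_of_bounded s1 s2 fun m' => ?_).trans
        (mul_le_mul_of_nonneg_left (b2.trans (hnb n)) hq)
      have hI : 0 ≤ ∫ x in Ioo 0 L, (p (u n) m' x) ^ 2 :=
        integral_nonneg fun x => sq_nonneg _
      by_cases hmm : m' = m n
      · rw [if_pos hmm, norm_zero]
        exact mul_nonneg hq hI
      · rw [if_neg hmm, Real.norm_eq_abs]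
        obtain ⟨α, β, hαβ⟩ := hreg n m'
        have e1 := est hQ hη hS (hCy.mem _ _) hαβ
        have e2 : (m n : ℝ) + 2 - r ≤ |lam n - ((m' : ℝ) + 1) ^ 2| := by
          have g1 := sq_gap (m n) m' hmm
          have g2 := hlam n
          have g3 : |((m n : ℝ) + 1) ^ 2 - ((m' : ℝ) + 1) ^ 2| ≤
              |lam n - ((m' : ℝ) + 1) ^ 2| + |lam n - ((m n : ℝ) + 1) ^ 2| := by
            have : ((m n : ℝ) + 1) ^ 2 - ((m' : ℝ) + 1) ^ 2 =
                (lam n - ((m' : ℝ) + 1) ^ 2) - (lam n - ((m n : ℝ) + 1) ^ 2) := by ring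
            rw [this]
            exact abs_sub _ _
          linarith
        rw [div_mul_eq_mul_div, le_div_iff₀ (by positivity)]
        refine le_trans ?_ e1
        have e3 := abs_nonneg (∫ x in Ioo 0 L, deriv η x * (p (u n) m' x) ^ 2)
        nlinarith
    have t3 : Tendsto (fun n => (∫ x, f x * (i (u n) x) ^ 2 ∂μ) -
        ∫ x in Ioo 0 L, deriv η x * (p (u n) (m n) x) ^ 2) atTop (𝓝 0) :=
      squeeze_zero_norm' hbd t2
    simpa using t1.sub t3
  choose α β hαβ using hreg
  refine hLim L r C0 c χ hL hcpos hχ hχ0 (fun n => lam n - ((m n : ℝ) + 1) ^ 2)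
    (fun n => α n (m n)) (fun n => β n (m n)) hlam (fun n => ?_) (fun n => ?_) fun η hη => ?_
  · obtain ⟨b1, b2⟩ := hCy.bd (u n)
    have e1 : ∫ x in Ioo 0 L, (α n (m n) * cs (lam n - ((m n : ℝ) + 1) ^ 2) x +
        β n (m n) * sn (lam n - ((m n : ℝ) + 1) ^ 2) x) ^ 2 = ∫ x in Ioo 0 L, (p (u n) (m n) x) ^ 2 := by
      refine integral_congr_ae ?_
      filter_upwards [hαβ n (m n)] with x hx
      rw [hx]
    rw [e1]
    exact (b1.le_tsum (m n) fun j _ => integral_nonneg fun x => sq_nonneg _).trans (b2.trans (hnb n))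
  · have e1 : ∫ x in Ioo 0 L, χ x * (α n (m n) * cs (lam n - ((m n : ℝ) + 1) ^ 2) x +
        β n (m n) * sn (lam n - ((m n : ℝ) + 1) ^ 2) x) = ∫ x in Ioo 0 L, χ x * p (u n) (m n) x := by
      refine integral_congr_ae ?_
      filter_upwards [hαβ n (m n)] with x hx
      rw [hx]
    rw [e1]
    exact hcomp n
  · refine (hmain η hη).congr fun n => ?_
    refine integral_congr_ae ?_
    filter_upwards [hαβ n (m n)] with x hx
    rw [hx]

end Pool.Agent.Y237.QE
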